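import Pool.Agent.H25.CFL.Targets

/-!
# MP_e37c09_lc, row U3 of the board hcl_modules: there is no least bound
-/

open Ordinal Cardinal Order Set
open scoped ZFSet

universe u

namespace Pool.Agent.H13.HCL

open _root_.HD Pool.Agent.H25.CFL

/-- the ordinals above `y` are a club set -/
theorem clb_gt {lam : Ordinal.{u}} (hlim : IsSuccLimit lam) {y : Ordinal.{u}} (hy : y < lam) :
    Clb lam {x | y < x} := by
  refine ⟨fun a ha => ⟨succ (max a y), hlim.succ_lt (max_lt ha hy), ?_, ?_⟩, ?_⟩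
  · exact (le_max_left a y).trans_lt (lt_succ _)
  · exact (le_max_right a y).trans_lt (lt_succ _)
  · intro x _ hx0 h
    obtain ⟨z, hz, _, hz2⟩ := h 0 hx0
    exact lt_trans (hz2 : y < z) hz

theorem pf_U3 (hWN : T_WN.{u}) (hDL : T_DL.{u}) (hVA : T_VA.{u}) (hVC : T_VC.{u}) :
    T_U3.{u} := by
  intro M lam h c hst H y hy
  have hlim : IsSuccLimit lam := hst.reg.1
  have hω : ℵ₀ < lam.cof := hst.mreg.aleph0_le.trans_lt hst.mlt
  -- the definable set of the singular points
  have hS : DS {x : Ordinal.{u} | IsSuccLimit x ∧ h x < x} := by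
    have h1 : DO fun w : ℕ → Ordinal.{u} => IsSuccLimit (w 0) := hDL
    have h2 : DO fun w : ℕ → Ordinal.{u} => ∃ z < w 0, z = h (w 0) :=
      DO.exLt (R := fun z w => z = h (w 0)) 0
        (DO.s2 (X := fun x y => y = h x) hst.hc.dh 1 0)
    refine (h1.and h2).congr fun w => ?_
    show (IsSuccLimit (w 0) ∧ h (w 0) < w 0) ↔ _
    refine and_congr_right fun _ => ?_
    constructor
    · intro h3
      exact ⟨_, h3, rfl⟩
    · rintro ⟨z, hz, rfl⟩
      exact hz
  obtain ⟨b, hb, hb2⟩ := hWN M lam hst.mreg hst.reg hst.mlt hst.ns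
    {x : Ordinal.{u} | IsSuccLimit x ∧ h x < x} h hS hst.hc.dh (fun x hx _ _ => hx.2)
  have hnull : ¬ Pos M.ord lam {x : Ordinal.{u} | IsSuccLimit x ∧ h x < x} := by
    intro hP
    refine null_union hVA hω hb2 (H b hb) (hP.mono fun x _ hx _ => ?_)
    rcases le_or_gt b (h x) with hle | hlt
    · exact Or.inl ⟨hx, hle⟩
    · exact Or.inr ⟨hx.1, hlt.le⟩
  have hpos : Pos M.ord lam (univ \ {x : Ordinal.{u} | IsSuccLimit x ∧ h x < x}) :=
    pos_diff hVA hω (hVC M lam hst.mreg hst.mlt) hnull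
  obtain ⟨x, hx, hxy, hxS, hxc⟩ := hpos _ (clb_gt hlim hy)
  have hcof : x.cof = M := Cardinal.ord_injective hxc
  have hxlim : IsSuccLimit x := by
    refine Ordinal.aleph0_le_cof.1 ?_
    rw [hcof]
    exact hst.mreg.aleph0_le
  have hxh : h x = x := by
    refine le_antisymm (hst.hc.le x hxlim) ?_
    by_contra hn
    exact hxS.2 ⟨hxlim, not_le.1 hn⟩
  have hreg := hst.hc.reg x hxlim
  rw [hxh] at hreg
  exact ⟨x, hxy, hx, hreg, hcof⟩

end Pool.Agent.H13.HCL
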